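import Pool.Agent.helper41.HFE.Spec

/-!
# Row hfe:LOB (MP_3221a1_ag): the trivial lower bound of the defect
-/

set_option autoImplicit false

open Polynomial Module Pool.Agent.HFN

namespace Pool.Agent.HFE

noncomputable section

/-- the multiples of `f` in an ideal -/
theorem LOB_hd (K : Ideal AA) (f : AA) (hf : f ≠ 0) (hfK : f ∈ K) (i j : ℕ) :
    (i + 1 - dX f) * (j + 1 - dY f) ≤ hd K i j := by
  by_cases ha : dX f ≤ i
  · by_cases hb : dY f ≤ j
    · have h1 : finrank ℂ (V (i - dX f) (j - dY f)) ≤ hd K i j := by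
        let T : V (i - dX f) (j - dY f) →ₗ[ℂ] (V i j ⊓ K.restrictScalars ℂ : Submodule ℂ AA) :=
          LinearMap.codRestrict _ ((LinearMap.mulLeft ℂ f).comp (V (i - dX f) (j - dY f)).subtype) (by
            intro g
            change f * (g : AA) ∈ (V i j ⊓ K.restrictScalars ℂ : Submodule ℂ AA)
            refine ⟨?_, ?_⟩
            · have h2 : f ∈ V (dX f) (dY f) := ⟨le_refl _, le_refl _⟩
              have h3 := mul_mem_V h2 g.2
              have e1 : dX f + (i - dX f) = i := by omega
              have e2 : dY f + (j - dY f) = j := by omega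
              rw [e1, e2] at h3
              exact h3
            · exact K.mul_mem_right _ hfK)
        have hT : Function.Injective T := by
          intro g g' h
          have h2 : f * (g : AA) = f * (g' : AA) := congrArg Subtype.val h
          exact Subtype.ext (mul_left_cancel₀ hf h2)
        exact LinearMap.finrank_le_finrank_of_injective hT
      rw [finrank_V] at h1
      have e1 : i + 1 - dX f = i - dX f + 1 := by omega
      have e2 : j + 1 - dY f = j - dY f + 1 := by omega
      rw [e1, e2]
      exact h1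
    · have e2 : j + 1 - dY f = 0 := by omega
      rw [e2, mul_zero]
      exact Nat.zero_le _
  · have e1 : i + 1 - dX f = 0 := by omega
    rw [e1, zero_mul]
    exact Nat.zero_le _

theorem LOB (hDFQ : DFQ_stmt) (hCDJ : CDJ_stmt) (hLAF : LAF_stmt) : LOB_stmt := by
  intro Z f i j hf
  obtain ⟨h1, h2⟩ := hLAF Z f
  have hfc : Fc (JJ Z two) := (hCDJ Z two (fun _ => le_refl _)).1
  have h3 := hDFQ _ h1 i j
  rw [h2] at h3
  have h4 := LOB_hd (JJ Z two ⊔ Ideal.span {f}) f hf (Ideal.mem_sup_right (Ideal.mem_span_singleton_self f)) i j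
  have h5 : finrank ℂ (AA ⧸ (V i j ⊔ (JJ Z two ⊔ Ideal.span {f}).restrictScalars ℂ : Submodule ℂ AA)) ≤ df Z i j := by
    have hle : (V i j ⊔ (JJ Z two).restrictScalars ℂ : Submodule ℂ AA) ≤ V i j ⊔ (JJ Z two ⊔ Ideal.span {f}).restrictScalars ℂ :=
      sup_le_sup_left (fun g hg => (le_sup_left : JJ Z two ≤ JJ Z two ⊔ Ideal.span {f}) hg) _
    have hle2 : ((JJ Z two).restrictScalars ℂ : Submodule ℂ AA) ≤ V i j ⊔ (JJ Z two).restrictScalars ℂ := le_sup_right
    have hfin0 : FiniteDimensional ℂ (AA ⧸ ((JJ Z two).restrictScalars ℂ : Submodule ℂ AA)) := hfc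
    have hfin : FiniteDimensional ℂ (AA ⧸ (V i j ⊔ (JJ Z two).restrictScalars ℂ : Submodule ℂ AA)) :=
      Module.Finite.of_surjective (Submodule.factor hle2) (Submodule.factor_surjective hle2)
    have h7 := LinearMap.finrank_range_le (Submodule.factor hle)
    rw [LinearMap.range_eq_top.2 (Submodule.factor_surjective hle), finrank_top] at h7
    exact h7
  have h6 : (i + 1 - dX f) * (j + 1 - dY f) ≤ (i + 1) * (j + 1) := Nat.mul_le_mul (Nat.sub_le _ _) (Nat.sub_le _ _)
  unfold chi
  omega

end

end Pool.Agent.HFE
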