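import Pool.Agent.helper41.HFE.SpecK

/-!
# Row hfe:NEK (MP_3221a1_ag): the necessary part of the classification on `Uk κ`
-/

set_option autoImplicit false

open Polynomial Module Pool.Agent.HFN

namespace Pool.Agent.HFE

noncomputable section

theorem NEK_as (g g' : AA) (h : Associated g g') (hg : g ≠ 0) : dX g' = dX g ∧ dY g' = dY g ∧ ∀ z, (ev z g' = 0 ↔ ev z g = 0) := by
  obtain ⟨u, rfl⟩ := h
  have hu : (u : AA) * ((u⁻¹ : AAˣ) : AA) = 1 := u.mul_inv
  have hu0 : (u : AA) ≠ 0 := u.ne_zero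
  have hu1 : ((u⁻¹ : AAˣ) : AA) ≠ 0 := (u⁻¹).ne_zero
  have h1 := dX_mul hu0 hu1
  have h2 := dY_mul hu0 hu1
  rw [hu, dX_one] at h1
  rw [hu, dY_one] at h2
  refine ⟨?_, ?_, fun z => ?_⟩
  · rw [dX_mul hg hu0]
    omega
  · rw [dY_mul hg hu0]
    omega
  · have h3 : ev z (u : AA) * ev z ((u⁻¹ : AAˣ) : AA) = 1 := by
      rw [← ev_mul, hu, ev_one]
    have h4 : ev z (u : AA) ≠ 0 := left_ne_zero_of_mul (by rw [h3]; exact one_ne_zero)
    rw [ev_mul]
    exact mul_eq_zero_iff_right h4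

theorem NEK_bg (κ : ℕ) (Z : Finset (ℂ × ℂ)) (g : AA) (h : Bg κ Z g) :
    Irreducible g ∧ (dX g = 1 ∨ dY g = 1) ∧ 1 ≤ dX g ∧ 1 ≤ dY g ∧ dX g * dY g + 1 ≤ κ := by
  rcases h with ⟨h1, h2, h3, i, s, U, -, h4, -⟩ | ⟨h1, h2, h3, i, s, U, -, h4, -⟩
  · refine ⟨h1, Or.inl h2, by omega, h3, ?_⟩
    rw [h2, one_mul]
    omega
  · rw [dX_sw] at h2
    rw [dY_sw] at h3 h4
    refine ⟨(MulEquiv.irreducible_iff sw).1 h1, Or.inr h2, h3, by omega, ?_⟩
    rw [h2, mul_one]
    omega

open Pool.Agent.helper29.JZ in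
theorem NEK : NEK_stmt := by
  classical
  intro hE hU hH hL hC κ Z hκ hZ
  obtain ⟨h, h', x, y, M, hx, hy, hc, hr, hM, hZM⟩ := hE Z
  have hM1 : 1 ≤ M.card := by omega
  by_cases hB : ∃ g : AA, Bg κ Z g
  · obtain ⟨g, hg⟩ := hB
    obtain ⟨hi, hd1, hdx, hdy, hk⟩ := NEK_bg κ Z g hg
    obtain ⟨hH1, hH2⟩ := hH g hi hdx hdy
    have hW : ∀ p ∈ M, (p ∈ M.filter (fun p => ev (x p.1, y p.2) g = 0) ↔ ev (x p.1, y p.2) g = 0) := by
      intro p hp
      rw [Finset.mem_filter]
      exact ⟨fun h => h.2, fun h => ⟨hp, h⟩⟩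
    refine ⟨h, h', M, M.filter (fun p => ev (x p.1, y p.2) g = 0), dX g, dY g, ⟨hM, hc, hr, hdx, hdy, hd1, hk, Finset.filter_subset _ _, ?_, ?_⟩, ?_⟩
    · intro m
      have h1 := hH2 (y m) (((M.filter (fun p => ev (x p.1, y p.2) g = 0)).filter fun z => z.2 = m).image fun z => x z.1) ?_
      · rw [Finset.card_image_of_injOn] at h1
        · unfold row
          exact h1
        · intro p hp q hq hpq
          rw [Finset.mem_coe, Finset.mem_filter] at hp hq
          exact Prod.ext (hx hpq) (hp.2.trans hq.2.symm)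
      · intro t ht
        rw [Finset.mem_image] at ht
        obtain ⟨p, hp, rfl⟩ := ht
        rw [Finset.mem_filter, Finset.mem_filter] at hp
        rw [← hp.2]
        exact hp.1.2
    · intro k
      have h1 := hH1 (x k) (((M.filter (fun p => ev (x p.1, y p.2) g = 0)).filter fun z => z.1 = k).image fun z => y z.2) ?_
      · rw [Finset.card_image_of_injOn] at h1
        · unfold col
          exact h1
        · intro p hp q hq hpq
          rw [Finset.mem_coe, Finset.mem_filter] at hp hq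
          exact Prod.ext (hp.2.trans hq.2.symm) (hy hpq)
      · intro t ht
        rw [Finset.mem_image] at ht
        obtain ⟨p, hp, rfl⟩ := ht
        rw [Finset.mem_filter, Finset.mem_filter] at hp
        rw [← hp.2]
        exact hp.1.2
    · intro i j hO
      have hb : HBk κ x y M (M.filter (fun p => ev (x p.1, y p.2) g = 0)) (dX g) (dY g) := by
        intro g' hg'
        rw [hZM] at hg'
        obtain ⟨e1, e2, e3⟩ := NEK_as g g' (hU κ Z g g' hκ hg hg') hi.ne_zero
        refine ⟨e1, e2, fun p hp => ?_⟩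
        rw [hW p hp]
        exact (e3 _).symm
      have h1 := hC κ h h' x y M _ _ _ hκ hx hy hc hr hM1 hb i j (by rw [hM]; exact hO)
      have h2 := hL.1 h h' x y M _ _ _ g hx hy hi rfl rfl hdx hdy hd1 hW i j
      rw [hZM] at h1 h2
      exact le_antisymm h1 h2
  · refine ⟨h, h', M, ∅, 1, 1, ⟨hM, hc, hr, le_rfl, le_rfl, Or.inl rfl, by omega, Finset.empty_subset _, ?_, ?_⟩, ?_⟩
    · intro m
      simp [row]
    · intro k
      simp [col]
    · intro i j hO
      have hb : HBk κ x y M ∅ 1 1 := by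
        intro g' hg'
        rw [hZM] at hg'
        exact absurd ⟨g', hg'⟩ hB
      have h1 := hC κ h h' x y M _ _ _ hκ hx hy hc hr hM1 hb i j (by rw [hM]; exact hO)
      have h2 := hL.2 h h' x y M 1 1 hx hy i j
      rw [hZM] at h1 h2
      exact le_antisymm h1 h2

end

end Pool.Agent.HFE
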